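import Pool.Agent.Y882.GP.Defs

/-! Project GP, job TW: the twisted root count of an induced character. -/

set_option autoImplicit false

namespace Pool.Agent.Y312.GP

open Finset Polynomial
open Pool.Agent.Y882.GP

lemma eval_mod (F : ℤ[X]) (k : ℤ) {a b : ℕ} {d : ℕ} (h : a ≡ b [MOD d]) :
    (d : ℤ) ∣ F.eval (a : ℤ) + k ↔ (d : ℤ) ∣ F.eval (b : ℤ) + k := by
  have h1 : (d : ℤ) ∣ (b : ℤ) - a := Nat.modEq_iff_dvd.1 h
  have h2 : (b : ℤ) - a ∣ F.eval (b : ℤ) - F.eval (a : ℤ) := Polynomial.sub_dvd_eval_sub _ _ _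
  have h3 : (d : ℤ) ∣ (F.eval (b : ℤ) + k) - (F.eval (a : ℤ) + k) := by
    have : (F.eval (b : ℤ) + k) - (F.eval (a : ℤ) + k) = F.eval (b : ℤ) - F.eval (a : ℤ) := by ring
    rw [this]
    exact h1.trans h2
  exact (dvd_iff_dvd_of_dvd_sub h3).symm

lemma coprime_mod {a b : ℕ} {d : ℕ} (h : a ≡ b [MOD d]) : a.Coprime d ↔ b.Coprime d := by
  unfold Nat.Coprime
  rw [h.gcd_eq]

lemma mem_Rt (F : ℤ[X]) (k : ℤ) (d a : ℕ) :
    a ∈ Rt F k d ↔ a < d ∧ (d : ℤ) ∣ F.eval (a : ℤ) + k ∧ a.Coprime d := by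
  unfold Rt
  simp

theorem tw_level : St_TW := by
  intro F k f g hfg hf hg h ψ
  unfold tw rs
  rw [card_eq_sum_ones, Nat.cast_sum, sum_mul_sum]
  rw [← sum_product']
  symm
  refine sum_nbij' (i := fun p => (Nat.chineseRemainder hfg p.2 p.1 : ℕ)) (j := fun a => (a % g, a % f))
    ?_ ?_ ?_ ?_ ?_
  · rintro ⟨x, y⟩ hxy
    rw [mem_product, mem_Rt, mem_Rt] at hxy
    obtain ⟨⟨h1, h2, h3⟩, h4, h5, h6⟩ := hxy
    simp only at h1 h2 h3 h4 h5 h6
    obtain ⟨hc1, hc2⟩ := (Nat.chineseRemainder hfg y x).2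
    simp only
    rw [mem_Rt]
    refine ⟨Nat.chineseRemainder_lt_mul hfg y x hf.ne' hg.ne', ?_, ?_⟩
    · push_cast
      exact IsCoprime.mul_dvd (by exact_mod_cast Nat.isCoprime_iff_coprime.2 hfg)
        ((eval_mod F k hc1).2 h5) ((eval_mod F k hc2).2 h2)
    · exact Nat.Coprime.mul_right ((coprime_mod hc1).2 h6) ((coprime_mod hc2).2 h3)
  · intro a ha
    rw [mem_Rt] at ha
    obtain ⟨h1, h2, h3⟩ := ha
    push_cast at h2
    rw [mem_product, mem_Rt, mem_Rt]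
    have hg' : a % g ≡ a [MOD g] := Nat.mod_modEq _ _
    have hf' : a % f ≡ a [MOD f] := Nat.mod_modEq _ _
    exact ⟨⟨Nat.mod_lt _ hg, (eval_mod F k hg').2 ((dvd_mul_left _ _).trans h2),
      (coprime_mod hg').2 (Nat.Coprime.coprime_mul_left_right h3)⟩,
      Nat.mod_lt _ hf, (eval_mod F k hf').2 ((dvd_mul_right _ _).trans h2),
      (coprime_mod hf').2 (Nat.Coprime.coprime_mul_right_right h3)⟩
  · rintro ⟨x, y⟩ hxy
    rw [mem_product, mem_Rt, mem_Rt] at hxy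
    obtain ⟨⟨h1, h2, h3⟩, h4, h5, h6⟩ := hxy
    simp only at h1 h2 h3 h4 h5 h6
    obtain ⟨hc1, hc2⟩ := (Nat.chineseRemainder hfg y x).2
    simp only
    have e1 : (Nat.chineseRemainder hfg y x : ℕ) % g = x := by
      rw [show (Nat.chineseRemainder hfg y x : ℕ) % g = x % g from hc2, Nat.mod_eq_of_lt h1]
    have e2 : (Nat.chineseRemainder hfg y x : ℕ) % f = y := by
      rw [show (Nat.chineseRemainder hfg y x : ℕ) % f = y % f from hc1, Nat.mod_eq_of_lt h4]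
    rw [e1, e2]
  · intro a ha
    rw [mem_Rt] at ha
    simp only
    have h7 : a ≡ (Nat.chineseRemainder hfg (a % f) (a % g) : ℕ) [MOD f * g] :=
      Nat.chineseRemainder_modEq_unique hfg (Nat.mod_modEq a f).symm (Nat.mod_modEq a g).symm
    have h8 := Nat.chineseRemainder_lt_mul hfg (a % f) (a % g) hf.ne' hg.ne'
    have h9 : a % (f * g) = (Nat.chineseRemainder hfg (a % f) (a % g) : ℕ) % (f * g) := h7
    rw [Nat.mod_eq_of_lt ha.1, Nat.mod_eq_of_lt h8] at h9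
    exact h9.symm
  · rintro ⟨x, y⟩ hxy
    rw [mem_product, mem_Rt, mem_Rt] at hxy
    obtain ⟨⟨h1, h2, h3⟩, h4, h5, h6⟩ := hxy
    simp only at h1 h2 h3 h4 h5 h6
    obtain ⟨hc1, hc2⟩ := (Nat.chineseRemainder hfg y x).2
    simp only [Nat.cast_one, one_mul]
    have hcop : (Nat.chineseRemainder hfg y x : ℕ).Coprime (f * g) :=
      Nat.Coprime.mul_right ((coprime_mod hc1).2 h6) ((coprime_mod hc2).2 h3)
    have h10 := DirichletCharacter.changeLevel_eq_cast_of_dvd' ψ h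
      (a := ((Nat.chineseRemainder hfg y x : ℕ) : ℤ)) (by exact_mod_cast Nat.isCoprime_iff_coprime.mpr hcop)
    push_cast at h10
    rw [h10]
    have h11 : (((Nat.chineseRemainder hfg y x : ℕ) : ℕ) : ZMod f) = (y : ZMod f) :=
      (ZMod.natCast_eq_natCast_iff _ _ _).2 hc1
    rw [h11]

end Pool.Agent.Y312.GP
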